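import Pool.Agent.W282.DZ.Stm

/-! # DZ-GROW: growth of the number of lattice points -/

set_option autoImplicit false

namespace Pool.Agent.W613.DZ

open Pool.Agent.W282.DZ MeasureTheory Metric Module
open scoped ENNReal

open scoped Function in
theorem card_sep {E : Type*} [NormedAddCommGroup E] [NormedSpace ℝ E] [FiniteDimensional ℝ E]
    (s : Finset E) (R r : ℝ) (hR : 0 ≤ R) (hr : 0 < r) (hs : ∀ c ∈ s, ‖c‖ ≤ R)
    (h : ∀ c ∈ s, ∀ d ∈ s, c ≠ d → r ≤ ‖c - d‖) :
    (s.card : ℝ) * (r / 2) ^ finrank ℝ E ≤ (R + r / 2) ^ finrank ℝ E := by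
  borelize E
  let μ : Measure E := Measure.addHaar
  have δpos : 0 < r / 2 := by positivity
  have ρpos : 0 < R + r / 2 := by positivity
  set A := ⋃ c ∈ s, ball (c : E) (r / 2) with hA
  have D : Set.Pairwise (s : Set E) (Disjoint on fun c => ball (c : E) (r / 2)) := by
    rintro c hc d hd hcd
    apply ball_disjoint_ball
    rw [dist_eq_norm, add_halves]
    exact h c hc d hd hcd
  have A_subset : A ⊆ ball (0 : E) (R + r / 2) := by
    refine Set.iUnion₂_subset fun x hx => ?_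
    apply ball_subset_ball'
    rw [dist_zero_right, add_comm]
    exact add_le_add (hs x hx) le_rfl
  have I : (s.card : ℝ≥0∞) * ENNReal.ofReal ((r / 2) ^ finrank ℝ E) * μ (ball 0 1) ≤
      ENNReal.ofReal ((R + r / 2) ^ finrank ℝ E) * μ (ball 0 1) :=
    calc
      (s.card : ℝ≥0∞) * ENNReal.ofReal ((r / 2) ^ finrank ℝ E) * μ (ball 0 1) = μ A := by
        rw [hA, measure_biUnion_finset D fun c _ => measurableSet_ball]
        simp only [μ.addHaar_ball_of_pos _ δpos]
        simp only [Finset.sum_const, nsmul_eq_mul, mul_assoc]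
      _ ≤ μ (ball (0 : E) (R + r / 2)) := measure_mono A_subset
      _ = ENNReal.ofReal ((R + r / 2) ^ finrank ℝ E) * μ (ball 0 1) := by
        simp only [μ.addHaar_ball_of_pos _ ρpos]
  have J : (s.card : ℝ≥0∞) * ENNReal.ofReal ((r / 2) ^ finrank ℝ E) ≤
      ENNReal.ofReal ((R + r / 2) ^ finrank ℝ E) :=
    (ENNReal.mul_le_mul_iff_left (measure_ball_pos _ _ zero_lt_one).ne' measure_ball_lt_top.ne).1 I
  have K := ENNReal.toReal_le_of_le_ofReal (pow_nonneg ρpos.le _) J
  rw [ENNReal.toReal_mul, ENNReal.toReal_natCast,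
    ENNReal.toReal_ofReal (pow_nonneg δpos.le _)] at K
  exact K

/-- the box is finite -/
theorem fin_box {n : ℕ} (L : Submodule ℤ (Fin n → ℤ)) (M : ℕ) :
    {a : Fin n → ℤ | a ∈ L ∧ ∀ j, |a j| < (M : ℤ)}.Finite := by
  refine (Set.Finite.pi' (t := fun _ : Fin n => Set.Ioo (-(M : ℤ)) M)
    (fun _ => Set.finite_Ioo _ _)).subset ?_
  rintro a ⟨-, ha⟩ j
  exact abs_lt.mp (ha j)

/-- the embedding into the real vector space -/
def re {n : ℕ} (a : Fin n → ℤ) : Fin n → ℝ := fun j => (a j : ℝ)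

theorem grow : S_GROW := by
  classical
  intro n L M N hM hMN
  set k := finrank ℤ L with hk
  let b : Basis (Fin k) ℤ L := Module.finBasis ℤ L
  let E : Submodule ℝ (Fin n → ℝ) := Submodule.span ℝ (Set.range fun i => re (b i : Fin n → ℤ))
  have hE : finrank ℝ E ≤ k := by
    have := finrank_range_le_card (R := ℝ) (fun i => re (b i : Fin n → ℤ))
    rwa [Fintype.card_fin] at this
  have hmem : ∀ a ∈ L, re a ∈ E := by
    intro a ha
    have h1 := b.sum_repr ⟨a, ha⟩
    have h2 : a = ∑ i, (b.repr ⟨a, ha⟩ i) • (b i : Fin n → ℤ) := by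
      have h3 := congrArg (Subtype.val) h1
      simp only [Submodule.coe_sum, Submodule.coe_smul] at h3
      exact h3.symm
    have h4 : re a = ∑ i, ((b.repr ⟨a, ha⟩ i : ℤ) : ℝ) • re (b i : Fin n → ℤ) := by
      funext j
      have h5 := congrFun h2 j
      simp only [Finset.sum_apply, Pi.smul_apply, smul_eq_mul] at h5
      simp only [re, Finset.sum_apply, Pi.smul_apply, smul_eq_mul]
      conv_lhs => rw [h5]
      push_cast
      rfl
    rw [h4]
    exact Submodule.sum_mem _ fun i _ => Submodule.smul_mem _ _ (Submodule.subset_span ⟨i, rfl⟩)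
  let X : Finset (Fin n → ℤ) := (fin_box L N).toFinset
  let Y : Finset (Fin n → ℤ) := (fin_box L M).toFinset
  have hX : ∀ a, a ∈ X ↔ a ∈ L ∧ ∀ j, |a j| < (N : ℤ) := fun a => by simp [X]
  have hY : ∀ a, a ∈ Y ↔ a ∈ L ∧ ∀ j, |a j| < (M : ℤ) := fun a => by simp [Y]
  have hXc : cnt L N = X.card := Set.ncard_eq_toFinset_card _ (fin_box L N)
  have hYc : cnt L M = Y.card := Set.ncard_eq_toFinset_card _ (fin_box L M)
  -- a maximal separated set
  let Sep : Finset (Fin n → ℤ) → Prop := fun s =>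
    ∀ a ∈ s, ∀ c ∈ s, a ≠ c → ∃ j, (M : ℤ) ≤ |a j - c j|
  obtain ⟨s, hs, hmax⟩ := Finset.exists_max_image (X.powerset.filter Sep) Finset.card
    ⟨∅, by simp [Sep]⟩
  rw [Finset.mem_filter, Finset.mem_powerset] at hs
  have hcov : ∀ x ∈ X, ∃ a ∈ s, ∀ j, |x j - a j| < (M : ℤ) := by
    intro x hx
    by_contra hcon
    push Not at hcon
    have hxs : x ∉ s := by
      intro h
      obtain ⟨j, hj⟩ := hcon x h
      rw [sub_self, abs_zero] at hj
      omega
    have h1 := hmax (insert x s) (by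
      rw [Finset.mem_filter, Finset.mem_powerset]
      refine ⟨Finset.insert_subset hx hs.1, ?_⟩
      intro a ha c hc hac
      rw [Finset.mem_insert] at ha hc
      rcases ha with rfl | ha <;> rcases hc with rfl | hc
      · exact absurd rfl hac
      · exact hcon c hc
      · obtain ⟨j, hj⟩ := hcon a ha
        exact ⟨j, by rw [abs_sub_comm]; exact hj⟩
      · exact hs.2 a ha c hc hac)
    rw [Finset.card_insert_of_notMem hxs] at h1
    omega
  choose! f hf1 hf2 using hcov
  have hcard : X.card ≤ s.card * Y.card := by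
    rw [← Finset.card_product]
    refine Finset.card_le_card_of_injOn (fun x => (f x, x - f x)) ?_ ?_
    · intro x hx
      rw [Finset.mem_coe, Finset.mem_product]
      refine ⟨hf1 x hx, (hY _).mpr ⟨?_, fun j => hf2 x hx j⟩⟩
      exact Submodule.sub_mem _ ((hX x).mp hx).1 ((hX _).mp (hs.1 (hf1 x hx))).1
    · intro x _ y _ hxy
      simp only [Prod.mk.injEq] at hxy
      have h2 := hxy.2
      rw [hxy.1] at h2
      exact sub_left_injective h2
  -- the volume bound
  have hsL : ∀ a ∈ s, a ∈ L := fun a ha => ((hX a).mp (hs.1 ha)).1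
  let g : s → E := fun a => ⟨re a.1, hmem a.1 (hsL a.1 a.2)⟩
  have hg : Function.Injective g := by
    intro a c hac
    apply Subtype.ext
    funext j
    have h1 := congrFun (congrArg Subtype.val hac) j
    simp only [g, re] at h1
    exact_mod_cast h1
  let T : Finset E := Finset.univ.image g
  have hT : T.card = s.card := by
    rw [Finset.card_image_of_injective _ hg, Finset.card_univ, Fintype.card_coe]
  have hvol := card_sep T N M (Nat.cast_nonneg _) (by exact_mod_cast hM) (by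
    intro c hc
    obtain ⟨a, -, rfl⟩ := Finset.mem_image.mp hc
    change ‖re a.1‖ ≤ N
    rw [pi_norm_le_iff_of_nonneg (Nat.cast_nonneg _)]
    intro j
    have h1 := ((hX a.1).mp (hs.1 a.2)).2 j
    rw [Real.norm_eq_abs]
    change |((a.1 j : ℤ) : ℝ)| ≤ N
    rw [← Int.cast_abs]
    exact_mod_cast h1.le) (by
    intro c hc d hd hcd
    obtain ⟨a, -, rfl⟩ := Finset.mem_image.mp hc
    obtain ⟨a', -, rfl⟩ := Finset.mem_image.mp hd
    have hne : a.1 ≠ a'.1 := fun h => hcd (by rw [Subtype.ext h])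
    obtain ⟨j, hj⟩ := hs.2 a.1 a.2 a'.1 a'.2 hne
    change (M : ℝ) ≤ ‖re a.1 - re a'.1‖
    refine le_trans ?_ (norm_le_pi_norm _ j)
    rw [Real.norm_eq_abs]
    change (M : ℝ) ≤ |((a.1 j : ℤ) : ℝ) - ((a'.1 j : ℤ) : ℝ)|
    rw [← Int.cast_sub, ← Int.cast_abs]
    exact_mod_cast hj)
  rw [hT] at hvol
  set k' := finrank ℝ E with hk'
  have h1 : (s.card : ℝ) * (M : ℝ) ^ k' ≤ (3 * (N : ℝ)) ^ k' := by
    have h2 : (s.card : ℝ) * (M : ℝ) ^ k' = 2 ^ k' * ((s.card : ℝ) * ((M : ℝ) / 2) ^ k') := by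
      rw [div_pow]
      field_simp
    have hMN' : (M : ℝ) ≤ N := by exact_mod_cast hMN
    have hM0 : (0 : ℝ) ≤ M := Nat.cast_nonneg _
    calc (s.card : ℝ) * (M : ℝ) ^ k' = 2 ^ k' * ((s.card : ℝ) * ((M : ℝ) / 2) ^ k') := h2
      _ ≤ 2 ^ k' * ((N : ℝ) + (M : ℝ) / 2) ^ k' := mul_le_mul_of_nonneg_left hvol (by positivity)
      _ = (2 * ((N : ℝ) + (M : ℝ) / 2)) ^ k' := by rw [mul_pow]
      _ ≤ (3 * (N : ℝ)) ^ k' := pow_le_pow_left₀ (by positivity) (by linarith) _
  have h3 : s.card * M ^ k' ≤ (3 * N) ^ k' := by exact_mod_cast h1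
  have h4 : s.card * M ^ k ≤ (3 * N) ^ k := by
    obtain ⟨d, hd⟩ := Nat.exists_eq_add_of_le hE
    rw [hd, pow_add, pow_add, ← mul_assoc]
    exact Nat.mul_le_mul h3 (Nat.pow_le_pow_left (by omega) _)
  rw [hXc, hYc]
  calc X.card * M ^ k ≤ (s.card * Y.card) * M ^ k := Nat.mul_le_mul_right _ hcard
    _ = (s.card * M ^ k) * Y.card := by ring
    _ ≤ (3 * N) ^ k * Y.card := Nat.mul_le_mul_right _ h4

end Pool.Agent.W613.DZ
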